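import Mathlib
import Pool.Agent.Helper894.Collatz

/-! Lower bound for the number of parity words with a large excursion. -/

set_option autoImplicit false

namespace Pool.Agent.H828R3.Exc

open Finset Pool.Agent.Helper894.Collatz

/-- some prefix of the parity word of `n` of length `≤ J` multiplies by at least `lam` -/
def PP (lam : ℝ) (J n : ℕ) : Prop := ∃ j ≤ J, lam * 2 ^ j ≤ 3 ^ od j n

/-- the growth factor -/
noncomputable def MM (J n : ℕ) : ℝ := 3 ^ od J n / 2 ^ J

theorem MM_pos (J n : ℕ) : 0 < MM J n := by unfold MM; positivity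

theorem PP_succ (lam : ℝ) (J n : ℕ) :
    PP lam (J + 1) n ↔ PP lam J n ∨ lam * 2 ^ (J + 1) ≤ 3 ^ od (J + 1) n := by
  constructor
  · rintro ⟨j, hj, h⟩
    rcases Nat.lt_or_ge j (J + 1) with h1 | h1
    · exact Or.inl ⟨j, by omega, h⟩
    · have : j = J + 1 := by omega
      subst this
      exact Or.inr h
  · rintro (⟨j, hj, h⟩ | h)
    · exact ⟨j, by omega, h⟩
    · exact ⟨J + 1, le_rfl, h⟩

theorem od_shift_le {j J : ℕ} (h : j ≤ J) (x c : ℕ) : od j (x + 2 ^ J * c) = od j x := by
  obtain ⟨d, rfl⟩ := Nat.exists_eq_add_of_le h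
  rw [pow_add, mul_assoc]
  exact (period j x (2 ^ d * c)).2.1

theorem PP_shift (lam : ℝ) (J x c : ℕ) : PP lam J (x + 2 ^ J * c) ↔ PP lam J x := by
  unfold PP
  constructor
  · rintro ⟨j, hj, h⟩
    exact ⟨j, hj, by rwa [od_shift_le hj] at h⟩
  · rintro ⟨j, hj, h⟩
    exact ⟨j, hj, by rwa [od_shift_le hj]⟩

/-- `M_{J+1}` of the two children -/
theorem MM_children (J x : ℕ) : MM (J + 1) x + MM (J + 1) (x + 2 ^ J) = 2 * MM J x ∧
    MM (J + 1) x ≤ 3 / 2 * MM J x ∧ MM (J + 1) (x + 2 ^ J) ≤ 3 / 2 * MM J x := by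
  have e2 : (2 : ℝ) ^ (J + 1) = 2 * 2 ^ J := by rw [pow_succ]; ring
  have hpos : (0 : ℝ) < 3 ^ od J x / 2 ^ J := by positivity
  unfold MM
  rw [od_succ, od_succ, flip_parity, od_shift]
  rcases Nat.mod_two_eq_zero_or_one (T^[J] x) with h | h
  · rw [h]
    simp only [Nat.sub_zero, add_zero]
    have e3 : (3 : ℝ) ^ (od J x + 1) / 2 ^ (J + 1) = 3 / 2 * (3 ^ od J x / 2 ^ J) := by
      rw [pow_succ, e2]; field_simp
    have e4 : (3 : ℝ) ^ (od J x) / 2 ^ (J + 1) = 1 / 2 * (3 ^ od J x / 2 ^ J) := by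
      rw [e2]; field_simp
    rw [e3, e4]
    refine ⟨by ring, by linarith, le_rfl⟩
  · rw [h]
    simp only [Nat.sub_self, add_zero]
    have e3 : (3 : ℝ) ^ (od J x + 1) / 2 ^ (J + 1) = 3 / 2 * (3 ^ od J x / 2 ^ J) := by
      rw [pow_succ, e2]; field_simp
    have e4 : (3 : ℝ) ^ (od J x) / 2 ^ (J + 1) = 1 / 2 * (3 ^ od J x / 2 ^ J) := by
      rw [e2]; field_simp
    rw [e3, e4]
    refine ⟨by ring, le_rfl, by linarith⟩

theorem ge_iff (lam : ℝ) (J n : ℕ) : lam * 2 ^ J ≤ 3 ^ od J n ↔ lam ≤ MM J n := by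
  unfold MM; rw [le_div_iff₀ (by positivity)]

open scoped Classical in
/-- optional stopping -/
theorem stop {lam : ℝ} (hlam : 1 ≤ lam) (J : ℕ) :
    ∑ n ∈ range (2 ^ J), (if PP lam J n then MM J n - 3 / 2 * lam else 0) ≤ 0 := by
  induction J with
  | zero =>
    simp only [pow_zero, range_one, sum_singleton]
    split_ifs
    · have : MM 0 0 = 1 := by simp [MM, od]
      rw [this]; linarith
    · exact le_rfl
  | succ J ih =>
    have h : ∑ x ∈ range (2 ^ (J + 1)), (if PP lam (J + 1) x then MM (J + 1) x - 3 / 2 * lam else 0)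
        ≤ ∑ x ∈ range (2 ^ J), 2 * (if PP lam J x then MM J x - 3 / 2 * lam else 0) := by
      rw [pow_succ, mul_two, sum_range_add, ← sum_add_distrib]
      apply sum_le_sum
      intro x _
      rw [add_comm (2 ^ J) x]
      obtain ⟨c1, c2, c3⟩ := MM_children J x
      have hs : PP lam J (x + 2 ^ J) ↔ PP lam J x := by
        have := PP_shift lam J x 1
        rwa [mul_one] at this
      by_cases hp : PP lam J x
      · have hp1 : PP lam (J + 1) x := (PP_succ lam J x).2 (Or.inl hp)
        have hp2 : PP lam (J + 1) (x + 2 ^ J) := (PP_succ lam J _).2 (Or.inl (hs.2 hp))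
        rw [if_pos hp1, if_pos hp2, if_pos hp]
        linarith
      · have hM : MM J x < lam := by
          by_contra hcon
          push Not at hcon
          exact hp ⟨J, le_rfl, (ge_iff lam J x).2 hcon⟩
        rw [if_neg hp, mul_zero]
        have a1 : (if PP lam (J + 1) x then MM (J + 1) x - 3 / 2 * lam else 0) ≤ 0 := by
          split_ifs
          · linarith
          · exact le_rfl
        have a2 : (if PP lam (J + 1) (x + 2 ^ J) then MM (J + 1) (x + 2 ^ J) - 3 / 2 * lam else 0) ≤ 0 := by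
          split_ifs
          · linarith
          · exact le_rfl
        linarith
    rw [← mul_sum] at h
    linarith

/-- the base of the lower tail -/
theorem sqrt_base : (1 + Real.sqrt 3) / (2 * Real.sqrt 2) ≤ 0.966 := by
  have h2 : 0 < Real.sqrt 2 := Real.sqrt_pos.2 (by norm_num)
  have h3 : Real.sqrt 3 ≤ 1.7321 := by
    rw [Real.sqrt_le_left (by norm_num)]; norm_num
  have h2' : 1.4142 ≤ Real.sqrt 2 := Real.le_sqrt_of_sq_le (by norm_num)
  rw [div_le_iff₀ (by positivity)]
  nlinarith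

open scoped Classical in
/-- THE COUNT: at least a proportion `1/(3 lam)` of the words has an excursion `≥ lam` -/
theorem count_PP {lam : ℝ} (hlam : 1 ≤ lam) {J : ℕ} (hJ : Real.sqrt lam * 0.966 ^ J ≤ 1 / 2) :
    (2 : ℝ) ^ J / (3 * lam) ≤ (((range (2 ^ J)).filter fun n => PP lam J n).card : ℝ) := by
  have hlam0 : 0 < lam := by linarith
  have h2J : (0 : ℝ) < 2 ^ J := by positivity
  have htot : ∑ n ∈ range (2 ^ J), MM J n = 2 ^ J := by
    unfold MM
    rw [← sum_div, sum_pow_od J 3]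
    rw [div_eq_iff h2J.ne', ← mul_pow]
    norm_num
  have hhalf : ∑ n ∈ range (2 ^ J), Real.sqrt (MM J n) ≤ 2 ^ J * 0.966 ^ J := by
    have e : ∀ n ∈ range (2 ^ J), Real.sqrt (MM J n) = (Real.sqrt 3) ^ od J n / (Real.sqrt 2) ^ J := by
      intro n _
      unfold MM
      rw [Real.sqrt_div (by positivity)]
      congr 1
      · rw [Real.sqrt_eq_iff_mul_self_eq (by positivity) (by positivity), ← mul_pow,
          Real.mul_self_sqrt (by norm_num)]
      · rw [Real.sqrt_eq_iff_mul_self_eq (by positivity) (by positivity), ← mul_pow,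
          Real.mul_self_sqrt (by norm_num)]
    rw [sum_congr rfl e, ← sum_div, sum_pow_od, ← div_pow, ← mul_pow]
    apply pow_le_pow_left₀ (by positivity)
    have := sqrt_base
    have h2 : 0 < Real.sqrt 2 := Real.sqrt_pos.2 (by norm_num)
    rw [div_le_iff₀ (by positivity)] at this
    rw [div_le_iff₀ h2]
    linarith
  have hstop := stop hlam J
  rw [sum_ite, sum_const_zero, add_zero, sum_sub_distrib, sum_const, nsmul_eq_mul] at hstop
  set G := (range (2 ^ J)).filter fun n => PP lam J n with hG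
  have hsplit : ∑ n ∈ range (2 ^ J), MM J n
      = ∑ n ∈ G, MM J n + ∑ n ∈ (range (2 ^ J)).filter (fun n => ¬ PP lam J n), MM J n :=
    (sum_filter_add_sum_filter_not _ _ _).symm
  have hrest : ∑ n ∈ (range (2 ^ J)).filter (fun n => ¬ PP lam J n), MM J n ≤ 2 ^ J / 2 := by
    calc ∑ n ∈ (range (2 ^ J)).filter (fun n => ¬ PP lam J n), MM J n
        ≤ ∑ n ∈ (range (2 ^ J)).filter (fun n => ¬ PP lam J n), Real.sqrt lam * Real.sqrt (MM J n) := by
          apply sum_le_sum
          intro n hn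
          have hM : MM J n ≤ lam := by
            by_contra hcon
            push Not at hcon
            exact (mem_filter.1 hn).2 ⟨J, le_rfl, (ge_iff lam J n).2 hcon.le⟩
          have h0 := MM_pos J n
          calc MM J n = Real.sqrt (MM J n) * Real.sqrt (MM J n) := (Real.mul_self_sqrt h0.le).symm
            _ ≤ Real.sqrt lam * Real.sqrt (MM J n) :=
              mul_le_mul_of_nonneg_right (Real.sqrt_le_sqrt hM) (Real.sqrt_nonneg _)
      _ ≤ ∑ n ∈ range (2 ^ J), Real.sqrt lam * Real.sqrt (MM J n) :=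
          sum_le_sum_of_subset_of_nonneg (filter_subset _ _) (fun n _ _ => by positivity)
      _ = Real.sqrt lam * ∑ n ∈ range (2 ^ J), Real.sqrt (MM J n) := by rw [mul_sum]
      _ ≤ Real.sqrt lam * (2 ^ J * 0.966 ^ J) := mul_le_mul_of_nonneg_left hhalf (Real.sqrt_nonneg _)
      _ = 2 ^ J * (Real.sqrt lam * 0.966 ^ J) := by ring
      _ ≤ 2 ^ J * (1 / 2) := mul_le_mul_of_nonneg_left hJ h2J.le
      _ = _ := by ring
  rw [htot] at hsplit
  rw [div_le_iff₀ (by positivity)]
  nlinarith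

end Pool.Agent.H828R3.Exc
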