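import Pool.Agent.H319R3.LV.LV10
import Pool.Agent.H828R3.Exc.WL

/-! Large excursions inside every invariant class. -/

set_option autoImplicit false

namespace Pool.Agent.H828R3.Exc

open Finset Filter Topology Pool.Agent.Helper894.Collatz

theorem Tn_eq (n : ℕ) : Pool.Agent.H499R2.ND.Tn n = T n := by
  simp only [Pool.Agent.H499R2.ND.Tn, T]

theorem big_of_PP {lam : ℝ} {J n : ℕ} (h : PP lam J n) : ∃ k, lam * n ≤ (T^[k] n : ℕ) := by
  obtain ⟨j, _, hj⟩ := h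
  refine ⟨j, ?_⟩
  have h1 := iter_eq j n
  have h2 : (3 : ℝ) ^ od j n * n ≤ 2 ^ j * (T^[j] n : ℕ) := by
    have : 3 ^ od j n * n ≤ 2 ^ j * T^[j] n := by omega
    exact_mod_cast this
  have h3 : (0 : ℝ) < 2 ^ j := by positivity
  have hn : (0 : ℝ) ≤ n := Nat.cast_nonneg n
  have h4 : 2 ^ j * (lam * n) ≤ 2 ^ j * ((T^[j] n : ℕ) : ℝ) := by
    calc 2 ^ j * (lam * n) = lam * 2 ^ j * n := by ring
      _ ≤ 3 ^ od j n * n := mul_le_mul_of_nonneg_right hj hn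
      _ ≤ _ := h2
  exact le_of_mul_le_mul_left h4 h3

theorem small_cond {c N lam : ℝ} {J : ℕ} (hc : 0 < c) (hN : 1 ≤ N) (hlam : 1 ≤ lam)
    (hlamN : lam ≤ N ^ (c / 40)) (hJ : c * Real.log N < (J + 1) * Real.log 2) (hJ30 : 30 ≤ J) :
    Real.sqrt lam * 0.966 ^ J ≤ 1 / 2 := by
  have hlam0 : 0 < lam := by linarith
  have hN0 : 0 < N := by linarith
  have h1 : Real.log lam ≤ c / 40 * Real.log N := by
    have := Real.log_le_log hlam0 hlamN
    rwa [Real.log_rpow hN0] at this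
  have h2 : Real.log 0.966 ≤ -0.034 := by
    have := Real.log_le_sub_one_of_pos (show (0 : ℝ) < 0.966 by norm_num)
    linarith
  have hl2 := Real.log_two_lt_d9
  have hl2' := Real.log_two_gt_d9
  have hJR : (30 : ℝ) ≤ J := by exact_mod_cast hJ30
  have hs : Real.sqrt lam = Real.exp (Real.log lam / 2) := by
    rw [Real.sqrt_eq_rpow, Real.rpow_def_of_pos hlam0]; ring_nf
  have h3 : (0.966 : ℝ) ^ J = Real.exp (J * Real.log 0.966) := by
    rw [Real.exp_nat_mul, Real.exp_log (by norm_num)]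
  have h4 : (1 : ℝ) / 2 = Real.exp (-Real.log 2) := by
    rw [Real.exp_neg, Real.exp_log (by norm_num)]; norm_num
  rw [hs, h3, h4, ← Real.exp_add]
  apply Real.exp_le_exp.2
  have h5 : (J : ℝ) * Real.log 0.966 ≤ J * (-0.034) := mul_le_mul_of_nonneg_left h2 (by positivity)
  nlinarith

open scoped Classical in
/-- large excursions inside an invariant class: proportion at least `const / lam` -/
theorem inv_large {P F : ℕ → Prop} (hP : ∀ n : ℕ, 1 ≤ n → (P n ↔ P (T n)))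
    (hFr : ∀ n : ℕ, 1 ≤ n → P n → ∃ i : ℕ, F (T^[i] n)) {n0 : ℕ} (hn0 : 1 ≤ n0)
    (hPn0 : P n0) {η : ℝ} (hη : 0 < η) :
    ∃ c κ : ℝ, 0 < c ∧ 0 < κ ∧ ∃ N0 : ℕ, ∀ N : ℕ, N0 ≤ N → ∀ lam : ℝ, 1 ≤ lam →
      lam ≤ (N : ℝ) ^ κ → c * (N / lam) ≤
        ({n : ℕ | 1 ≤ n ∧ n ≤ N ∧ P n ∧ (∃ i : ℕ, (i : ℝ) ≤ (2 / Real.log (4 / 3) + η) * Real.log n ∧
          F (T^[i] n)) ∧ ∃ k, lam * n ≤ (T^[k] n : ℕ)}.ncard : ℝ) := by
  have hTn : Pool.Agent.H499R2.ND.Tn = T := funext Tn_eq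
  obtain ⟨l, hl0, -, -, hl⟩ := Pool.Agent.H319R3.LV.level_nat (P := P) (F := F)
    (fun n hn => by rw [Tn_eq]; exact hP n hn) (fun n hn h => by rw [hTn]; exact hFr n hn h) hn0 hPn0
  rw [hTn] at hl
  obtain ⟨c, hc, hc'⟩ := hl η hη
  obtain ⟨N1, hN1⟩ := hc' (l / 2) (by positivity)
  obtain ⟨N2, hN2⟩ := exists_nat_ge (Real.exp (30 * Real.log 2 / c))
  refine ⟨l / 6, c / 40, by positivity, by positivity, max N1 N2, fun N hN lam hlam hlamN => ?_⟩
  have hNN1 : N1 ≤ N := le_trans (le_max_left _ _) hN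
  have hNR : Real.exp (30 * Real.log 2 / c) ≤ N := by
    refine hN2.trans ?_
    exact_mod_cast le_trans (le_max_right _ _) hN
  have hN1' : (1 : ℝ) ≤ N := by
    refine le_trans ?_ hNR
    apply Real.one_le_exp
    have := Real.log_pos (show (1 : ℝ) < 2 by norm_num)
    positivity
  have hN0 : (0 : ℝ) < N := by linarith
  have hl2 : 0 < Real.log 2 := Real.log_pos (by norm_num)
  have hlogN : 30 * Real.log 2 ≤ c * Real.log N := by
    have := Real.log_le_log (Real.exp_pos _) hNR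
    rw [Real.log_exp, div_le_iff₀ hc] at this
    linarith
  obtain ⟨J, hJ⟩ : ∃ J : ℕ, J = ⌊c * Real.log N / Real.log 2⌋₊ := ⟨_, rfl⟩
  have hJ1 : (J : ℝ) * Real.log 2 ≤ c * Real.log N := by
    have : (J : ℝ) ≤ c * Real.log N / Real.log 2 := by
      rw [hJ]; exact Nat.floor_le (by have := Real.log_nonneg hN1'; positivity)
    rwa [le_div_iff₀ hl2] at this
  have hJ2 : c * Real.log N < (J + 1) * Real.log 2 := by
    have : c * Real.log N / Real.log 2 < J + 1 := by rw [hJ]; exact Nat.lt_floor_add_one _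
    rwa [div_lt_iff₀ hl2] at this
  have hJ30 : 30 ≤ J := by
    rw [hJ]
    apply Nat.le_floor
    rw [le_div_iff₀ hl2]
    exact_mod_cast hlogN
  have hpow : (2 : ℝ) ^ J * 3 ^ 0 ≤ (N : ℝ) ^ c := by
    rw [pow_zero, mul_one, Real.rpow_def_of_pos hN0, ← Real.exp_log (show (0 : ℝ) < 2 ^ J by positivity),
      Real.log_pow]
    apply Real.exp_le_exp.2
    linarith
  have hcount := count_PP hlam (small_cond hc hN1' hlam hlamN hJ2 hJ30)
  set G := (range (2 ^ J)).filter fun n => PP lam J n with hG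
  have h2J : (0 : ℝ) < 2 ^ J := by positivity
  have hlam0 : 0 < lam := by linarith
  -- the set as a finset
  set S := (Icc 1 N).filter fun n => P n ∧ (∃ i : ℕ, (i : ℝ) ≤ (2 / Real.log (4 / 3) + η) * Real.log n ∧
          F (T^[i] n)) ∧ ∃ k, lam * n ≤ (T^[k] n : ℕ) with hS
  have hset : {n : ℕ | 1 ≤ n ∧ n ≤ N ∧ P n ∧ (∃ i : ℕ, (i : ℝ) ≤ (2 / Real.log (4 / 3) + η) * Real.log n ∧
          F (T^[i] n)) ∧ ∃ k, lam * n ≤ (T^[k] n : ℕ)} = (S : Set ℕ) := by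
    ext n
    rw [hS, coe_filter]
    simp only [Set.mem_ofPred_eq, mem_Icc]
    tauto
  rw [hset, Set.ncard_coe_finset]
  have hfib : ∀ a ∈ G, l / 2 * (N / 2 ^ J) ≤ ((S.filter fun n => n % 2 ^ J = a).card : ℝ) := by
    intro a ha
    rw [hG, mem_filter, mem_range] at ha
    have h1 := (hN1 N hNN1 J 0 a hpow).2
    have h2 := (abs_le.1 h1).1
    rw [pow_zero, pow_zero, mul_one, mul_one] at h2
    have h3 : {n : ℕ | 1 ≤ n ∧ n ≤ N ∧ n ≡ a [MOD 2 ^ J] ∧ P n ∧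
        ∃ i : ℕ, (i : ℝ) ≤ (2 / Real.log (4 / 3) + η) * Real.log n ∧ F (T^[i] n)} ⊆
        ((S.filter fun n => n % 2 ^ J = a : Finset ℕ) : Set ℕ) := by
      rintro n ⟨h4, h5, h6, h7, h7'⟩
      rw [coe_filter, Set.mem_ofPred_eq, hS, mem_filter, mem_Icc]
      have h8 : n % 2 ^ J = a := by
        rw [h6]; exact Nat.mod_eq_of_lt ha.1
      refine ⟨⟨⟨h4, h5⟩, h7, h7', ?_⟩, h8⟩
      apply big_of_PP (J := J)
      rw [← Nat.mod_add_div n (2 ^ J), PP_shift, h8]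
      exact ha.2
    have h9 := Set.ncard_le_ncard h3 (Finset.finite_toSet _)
    rw [Set.ncard_coe_finset] at h9
    have h10 : (({n : ℕ | 1 ≤ n ∧ n ≤ N ∧ n ≡ a [MOD 2 ^ J] ∧ P n ∧
        ∃ i : ℕ, (i : ℝ) ≤ (2 / Real.log (4 / 3) + η) * Real.log n ∧ F (T^[i] n)}.ncard : ℕ) : ℝ) ≤
        ((S.filter fun n => n % 2 ^ J = a).card : ℝ) := by exact_mod_cast h9
    linarith
  have hsum : ∑ a ∈ G, ((S.filter fun n => n % 2 ^ J = a).card : ℝ) ≤ (S.card : ℝ) := by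
    have h1 : S.card = ∑ a ∈ range (2 ^ J), (S.filter fun n => n % 2 ^ J = a).card :=
      card_eq_sum_card_fiberwise (fun n _ => by
        rw [mem_coe, mem_range]; exact Nat.mod_lt _ (by positivity))
    rw [h1]
    push_cast
    exact sum_le_sum_of_subset_of_nonneg (filter_subset _ _) (fun a _ _ => Nat.cast_nonneg _)
  have h4 := sum_le_sum hfib
  rw [sum_const, nsmul_eq_mul] at h4
  calc l / 6 * (N / lam) = (2 ^ J / (3 * lam)) * (l / 2 * (N / 2 ^ J)) := by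
        field_simp; ring
    _ ≤ (G.card : ℝ) * (l / 2 * (N / 2 ^ J)) := mul_le_mul_of_nonneg_right hcount (by positivity)
    _ ≤ _ := h4.trans hsum

end Pool.Agent.H828R3.Exc
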