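import Pool.Agent.H828R3.Exc.UpR

/-! The law of large numbers for the 3x+1 map down to an arbitrary `y`, with a power saving in `y`. -/

set_option autoImplicit false

namespace Pool.Agent.H828R3.Exc

open Finset Pool.Agent.Helper894.Collatz Pool.Agent.H377R2 Pool.Agent.H319R2.Lln

/-- the descent of `n` to at most `y` follows the expected profile up to `ε log n` and stays `≤ V` -/
def Pr (ε y V : ℝ) (n : ℕ) : Prop :=
  ∃ m : ℕ, ((T^[m] n : ℕ) : ℝ) ≤ y ∧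
    ∀ j ≤ m, |Real.log (T^[j] n : ℕ) - Real.log n + mu * j| ≤ ε * Real.log n ∧
      ((T^[j] n : ℕ) : ℝ) ≤ V

theorem law {ε : ℝ} (hε : 0 < ε) : ∃ c C : ℝ, 0 < c ∧ 0 < C ∧ ∀ x y V : ℝ, 2 ≤ x → 1 ≤ y → x ≤ V →
    ({n : ℕ | 1 ≤ n ∧ (n : ℝ) ≤ x ∧ ¬ Pr ε y V n}.ncard : ℝ) ≤
      C * (Real.log x) ^ 4 * (x / y ^ c + x ^ 2 / V) := by
  classical
  have hl2 := Real.log_two_lt_d9
  have hl2' := Real.log_two_gt_d9
  have hlog2 : 0 < Real.log 2 := by linarith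
  have h3 : 0 < Real.log 3 := Real.log_pos (by norm_num)
  have hμ : 0 < mu := by have := mu_lower; linarith
  set η : ℝ := min (ε / 8) (1 / 20) with hη
  have hη0 : 0 < η := lt_min (by linarith) (by norm_num)
  have hη1 : η ≤ 1 / 20 := min_le_right _ _
  have hη2 : 8 * η ≤ ε := by have := min_le_left (ε / 8) (1 / 20 : ℝ); linarith
  set ε' : ℝ := mu * η / (4 * Real.log 3) with hε'
  have hε'0 : 0 < ε' := by positivity
  set c₀ : ℝ := 2 * ε' ^ 2 * (η / 2) with hc₀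
  have hc₀0 : 0 < c₀ := by positivity
  -- the exponent
  set c : ℝ := min (c₀ / Real.log 2) 1 with hc
  have hc0 : 0 < c := lt_min (by positivity) one_pos
  have hc1 : c ≤ 1 := min_le_right _ _
  have hcc : c * Real.log 2 ≤ c₀ := by
    have := min_le_left (c₀ / Real.log 2) 1
    rw [← hc, le_div_iff₀ hlog2] at this
    exact this
  set Y₀ : ℝ := 2 * 2 ^ (40 / η ^ 2) with hY₀
  have hY₀0 : 1 ≤ Y₀ := by
    have : (1 : ℝ) ≤ 2 ^ (40 / η ^ 2) := Real.one_le_rpow (by norm_num) (by positivity)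
    rw [hY₀]; linarith
  refine ⟨c, 2000000 + 5 * Y₀, hc0, by positivity, fun x y V hx hy hV => ?_⟩
  have hx0 : 0 < x := by linarith
  have hV0 : 0 < V := by linarith
  have hy0 : 0 < y := by linarith
  set L := Real.log x with hL
  have hL2 : Real.log 2 ≤ L := Real.log_le_log (by norm_num) hx
  have hL0 : 0 < L := by linarith
  have hL3 : 0.33 ≤ L ^ 3 := by
    calc (0.33 : ℝ) ≤ 0.693 ^ 3 := by norm_num
      _ ≤ L ^ 3 := pow_le_pow_left₀ (by norm_num) (by linarith) 3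
  have hL4 : 0.23 ≤ L ^ 4 := by
    calc (0.23 : ℝ) ≤ 0.693 ^ 4 := by norm_num
      _ ≤ L ^ 4 := pow_le_pow_left₀ (by norm_num) (by linarith) 4
  set S : Finset ℕ := (Icc 1 ⌊x⌋₊).filter (fun n => ¬ Pr ε y V n) with hS
  have hset : {n : ℕ | 1 ≤ n ∧ (n : ℝ) ≤ x ∧ ¬ Pr ε y V n} = (S : Set ℕ) := by
    ext n
    rw [hS, coe_filter]
    simp only [Set.mem_ofPred_eq, mem_Icc, Nat.le_floor_iff hx0.le]
    tauto
  rw [hset, Set.ncard_coe_finset]
  have hSx : (S.card : ℝ) ≤ x := by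
    have h1 : S.card ≤ ⌊x⌋₊ := by
      refine (card_filter_le _ _).trans ?_
      rw [Nat.card_Icc]; omega
    calc (S.card : ℝ) ≤ (⌊x⌋₊ : ℝ) := by exact_mod_cast h1
      _ ≤ x := Nat.floor_le hx0.le
  have hyc : 0 < y ^ c := Real.rpow_pos_of_pos hy0 _
  have hterm0 : 0 ≤ x ^ 2 / V := by positivity
  -- trivial case: `y` small
  have triv : y ^ c ≤ (2000000 + 5 * Y₀) * L ^ 4 →
      (S.card : ℝ) ≤ (2000000 + 5 * Y₀) * L ^ 4 * (x / y ^ c + x ^ 2 / V) := by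
    intro h
    calc (S.card : ℝ) ≤ x := hSx
      _ = y ^ c * (x / y ^ c) := by field_simp
      _ ≤ (2000000 + 5 * Y₀) * L ^ 4 * (x / y ^ c) := mul_le_mul_of_nonneg_right h (by positivity)
      _ ≤ _ := by
          apply mul_le_mul_of_nonneg_left _ (by positivity)
          linarith
  -- `k`
  obtain ⟨k, hk⟩ : ∃ k, k = Nat.log 2 ⌊x⌋₊ + 1 := ⟨_, rfl⟩
  have hfx : ⌊x⌋₊ ≠ 0 := by
    have : 2 ≤ ⌊x⌋₊ := Nat.le_floor (by exact_mod_cast hx)
    omega
  have hkx : (2 : ℝ) ^ k ≤ 2 * x := by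
    have h1 : 2 ^ (Nat.log 2 ⌊x⌋₊) ≤ ⌊x⌋₊ := Nat.pow_log_le_self 2 hfx
    have h2 : ((2 : ℝ) ^ (Nat.log 2 ⌊x⌋₊)) ≤ ⌊x⌋₊ := by exact_mod_cast h1
    have h3 := Nat.floor_le hx0.le
    rw [hk, pow_succ]; linarith
  have hxk : ∀ n : ℕ, (n : ℝ) ≤ x → n < 2 ^ k := by
    intro n hn
    rw [hk]
    exact lt_of_le_of_lt (Nat.le_floor hn) (Nat.lt_pow_succ_log_self (by norm_num) _)
  have hkL : (k : ℝ) ≤ 3 * L := by
    have h1 : (k : ℝ) * Real.log 2 ≤ Real.log (2 * x) := by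
      rw [← Real.log_pow]
      exact Real.log_le_log (by positivity) hkx
    rw [Real.log_mul (by norm_num) hx0.ne', ← hL] at h1
    nlinarith
  have hk1 : (1 : ℝ) ≤ k := by
    have : 1 ≤ k := by omega
    exact_mod_cast this
  -- `l`
  obtain ⟨l, hl⟩ : ∃ l, l = Nat.log 2 ⌊y⌋₊ := ⟨_, rfl⟩
  have hfy : ⌊y⌋₊ ≠ 0 := by
    have : 1 ≤ ⌊y⌋₊ := Nat.le_floor (by exact_mod_cast hy)
    omega
  have hly : (2 : ℝ) ^ l ≤ y := by
    have h1 : 2 ^ l ≤ ⌊y⌋₊ := by rw [hl]; exact Nat.pow_log_le_self 2 hfy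
    have h2 : ((2 : ℝ) ^ l) ≤ ⌊y⌋₊ := by exact_mod_cast h1
    exact h2.trans (Nat.floor_le hy0.le)
  have hly2 : y ≤ 2 * 2 ^ l := by
    have h1 : ⌊y⌋₊ < 2 ^ (l + 1) := by rw [hl]; exact Nat.lt_pow_succ_log_self (by norm_num) _
    have h2 : ((⌊y⌋₊ + 1 : ℕ) : ℝ) ≤ 2 ^ (l + 1) := by exact_mod_cast h1
    have h3 := Nat.lt_floor_add_one y
    push_cast at h2
    rw [pow_succ] at h2
    linarith
  have hrp : ∀ Z : ℝ, 1 ≤ Z → y ≤ Z → y ^ c ≤ Z := by
    intro Z hZ hyZ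
    calc y ^ c ≤ Z ^ c := Real.rpow_le_rpow hy0.le hyZ hc0.le
      _ ≤ Z ^ (1 : ℝ) := Real.rpow_le_rpow_of_exponent_le hZ hc1
      _ = Z := Real.rpow_one _
  by_cases hl40 : 40 ≤ η ^ 2 * l
  swap
  · push Not at hl40
    apply triv
    have h1 : (l : ℝ) ≤ 40 / η ^ 2 := by
      rw [le_div_iff₀ (by positivity)]; linarith
    have h2 : (2 : ℝ) ^ l ≤ 2 ^ (40 / η ^ 2) := by
      rw [← Real.rpow_natCast]
      exact Real.rpow_le_rpow_of_exponent_le (by norm_num) h1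
    have h3 : y ≤ Y₀ := by rw [hY₀]; linarith
    refine (hrp Y₀ hY₀0 h3).trans ?_
    nlinarith
  by_cases hM : 2 * (10 * k) ≤ 2 ^ l
  swap
  · push Not at hM
    apply triv
    have h1 : (2 : ℝ) ^ l < 2 * (10 * k) := by exact_mod_cast hM
    have h2 : y ≤ 120 * L := by linarith
    have h4 : (1 : ℝ) ≤ 120 * L := by linarith
    refine (hrp _ h4 h2).trans ?_
    have h5 : L ^ 4 = L ^ 3 * L := by ring
    rw [h5]
    have h6 : 0.33 * L ≤ L ^ 3 * L := mul_le_mul_of_nonneg_right hL3 hL0.le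
    nlinarith [mul_nonneg (by linarith : (0:ℝ) ≤ Y₀) (by positivity : (0 : ℝ) ≤ L ^ 3 * L)]
  -- inclusion
  have hsub : S ⊆ Exc ε' (η / 2) k l (10 * k) ∪ ExcV V k l (10 * k) := by
    intro n hn
    rw [hS, mem_filter, mem_Icc, Nat.le_floor_iff hx0.le] at hn
    obtain ⟨⟨h5, h6⟩, h7⟩ := hn
    by_contra hcon
    rw [mem_union, not_or] at hcon
    obtain ⟨hc1, hc2⟩ := hcon
    apply h7
    have hk6 := hxk n h6
    obtain ⟨m0, hm0, hp⟩ := chain hη0 hη1 h5 hk6 hl40 hc1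
      (fun m => ((T^[m] n : ℕ) : ℝ) ≤ V) (by
        simp only [Function.iterate_zero, id]
        linarith) (by
        intro i m hli hik hm hfp hy' d hd
        by_contra hcon
        apply hc2
        unfold ExcV
        rw [mem_filter, mem_range]
        refine ⟨hk6, h5, i, hli, hik, m, hm, hfp, ?_⟩
        rw [mem_Big]
        refine ⟨hfp.2, hy', d, hd, ?_⟩
        rw [← Function.iterate_add_apply, add_comm]
        exact not_le.1 hcon)
    refine ⟨m0, ?_, fun m hm => ⟨(hp m hm).1.trans ?_, (hp m hm).2⟩⟩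
    · have : ((T^[m0] n : ℕ) : ℝ) ≤ 2 ^ l := by exact_mod_cast hm0.le
      linarith
    · exact mul_le_mul_of_nonneg_right hη2 (Real.log_natCast_nonneg n)
  have hcard := card_Exc ε' (η / 2) hε'0.le (by positivity) k l (10 * k) hM
  have hcardV := card_ExcV V hV0 k l (10 * k) hM
  have hS2 : (S.card : ℝ) ≤ (Exc ε' (η / 2) k l (10 * k)).card + (ExcV V k l (10 * k)).card := by
    have h5 := (card_le_card hsub).trans
      (card_union_le (Exc ε' (η / 2) k l (10 * k)) (ExcV V k l (10 * k)))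
    exact_mod_cast h5
  rw [← hc₀] at hcard
  push_cast at hcard hcardV
  have hexp : Real.exp (-(c₀ * l)) ≤ 2 / y ^ c := by
    rw [le_div_iff₀ hyc]
    have h1 : y ^ c ≤ 2 * (2 ^ l) ^ c := by
      calc y ^ c ≤ (2 * 2 ^ l) ^ c := Real.rpow_le_rpow hy0.le hly2 hc0.le
        _ = 2 ^ c * (2 ^ l) ^ c := Real.mul_rpow (by norm_num) (by positivity)
        _ ≤ 2 * (2 ^ l) ^ c := by
            apply mul_le_mul_of_nonneg_right _ (by positivity)
            calc (2 : ℝ) ^ c ≤ 2 ^ (1 : ℝ) := Real.rpow_le_rpow_of_exponent_le (by norm_num) hc1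
              _ = 2 := Real.rpow_one _
    have h2 : ((2 : ℝ) ^ l) ^ c = Real.exp (l * (c * Real.log 2)) := by
      rw [Real.rpow_def_of_pos (by positivity), Real.log_pow]; congr 1; ring
    calc Real.exp (-(c₀ * l)) * y ^ c ≤ Real.exp (-(c₀ * l)) * (2 * (2 ^ l) ^ c) :=
          mul_le_mul_of_nonneg_left h1 (Real.exp_pos _).le
      _ = 2 * Real.exp (-(c₀ * l) + l * (c * Real.log 2)) := by
          rw [h2, Real.exp_add]; ring
      _ ≤ 2 * Real.exp 0 := by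
          apply mul_le_mul_of_nonneg_left _ (by norm_num)
          apply Real.exp_le_exp.2
          have := mul_le_mul_of_nonneg_left hcc (Nat.cast_nonneg (α := ℝ) l)
          linarith
      _ = 2 := by rw [Real.exp_zero, mul_one]
  have h4k : (4 : ℝ) ^ k ≤ 4 * x ^ 2 := by
    have : (4 : ℝ) ^ k = (2 ^ k) ^ 2 := by rw [← pow_mul, mul_comm, pow_mul]; norm_num
    rw [this]
    calc ((2 : ℝ) ^ k) ^ 2 ≤ (2 * x) ^ 2 := pow_le_pow_left₀ (by positivity) hkx 2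
      _ = _ := by ring
  have hk4 : (k : ℝ) ^ 4 ≤ 81 * L ^ 4 := by
    calc (k : ℝ) ^ 4 ≤ (3 * L) ^ 4 := pow_le_pow_left₀ (by positivity) hkL 4
      _ = _ := by ring
  have hp1 : 8 * ((k : ℝ) + 1) ^ 2 * (10 * k + 2) ^ 2 ≤ 373248 * L ^ 4 := by
    calc 8 * ((k : ℝ) + 1) ^ 2 * (10 * k + 2) ^ 2 ≤ 8 * (2 * (k : ℝ)) ^ 2 * (12 * k) ^ 2 := by
          apply mul_le_mul _ _ (by positivity) (by positivity)
          · apply mul_le_mul_of_nonneg_left _ (by norm_num)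
            exact pow_le_pow_left₀ (by positivity) (by linarith) 2
          · exact pow_le_pow_left₀ (by positivity) (by linarith) 2
      _ = 4608 * (k : ℝ) ^ 4 := by ring
      _ ≤ _ := by linarith
  have hp2 : 8 * ((k : ℝ) + 1) * (10 * k + 2) ^ 2 ≤ 373248 * L ^ 4 := by
    refine le_trans ?_ hp1
    apply mul_le_mul_of_nonneg_right _ (by positivity)
    nlinarith
  have t1 : 8 * ((k : ℝ) + 1) ^ 2 * (10 * k + 2) ^ 2 * 2 ^ k * Real.exp (-(c₀ * l)) ≤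
      373248 * L ^ 4 * (4 * (x / y ^ c)) := by
    calc 8 * ((k : ℝ) + 1) ^ 2 * (10 * k + 2) ^ 2 * 2 ^ k * Real.exp (-(c₀ * l))
        = (8 * ((k : ℝ) + 1) ^ 2 * (10 * k + 2) ^ 2) * (2 ^ k * Real.exp (-(c₀ * l))) := by ring
      _ ≤ (373248 * L ^ 4) * ((2 * x) * (2 / y ^ c)) := by
          apply mul_le_mul hp1 _ (by positivity) (by positivity)
          exact mul_le_mul hkx hexp (Real.exp_pos _).le (by positivity)
      _ = _ := by ring
  have t2 : 8 * ((k : ℝ) + 1) * (10 * k + 2) ^ 2 * 4 ^ k / V ≤ 373248 * L ^ 4 * (4 * (x ^ 2 / V)) := by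
    rw [div_le_iff₀ hV0]
    calc 8 * ((k : ℝ) + 1) * (10 * k + 2) ^ 2 * 4 ^ k ≤ (373248 * L ^ 4) * (4 * x ^ 2) :=
          mul_le_mul hp2 h4k (by positivity) (by positivity)
      _ = _ := by field_simp
  have hY5 : 0 ≤ 5 * Y₀ * L ^ 4 * (x / y ^ c + x ^ 2 / V) := by positivity
  have h10 : 0 ≤ L ^ 4 * (x / y ^ c + x ^ 2 / V) := by positivity
  calc (S.card : ℝ) ≤ 373248 * L ^ 4 * (4 * (x / y ^ c)) + 373248 * L ^ 4 * (4 * (x ^ 2 / V)) := by
        refine hS2.trans (add_le_add ?_ ?_)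
        · refine le_trans ?_ t1
          refine hcard.trans (le_of_eq ?_)
          ring
        · exact hcardV.trans t2
    _ = 1492992 * (L ^ 4 * (x / y ^ c + x ^ 2 / V)) := by ring
    _ ≤ 2000000 * (L ^ 4 * (x / y ^ c + x ^ 2 / V)) + 5 * Y₀ * L ^ 4 * (x / y ^ c + x ^ 2 / V) := by
        linarith
    _ = _ := by ring

end Pool.Agent.H828R3.Exc
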