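import Pool.Agent.H828R3.Exc.WL

/-! Lower bound for the number of starting points which exceed `V` before they go below `x ^ θ`. -/

set_option autoImplicit false

namespace Pool.Agent.H828R3.Exc

open Finset Pool.Agent.Helper894.Collatz

theorem le_iter (i n : ℕ) : n ≤ 2 ^ i * T^[i] n := by
  have h := iter_eq i n
  have h1 : 1 * n ≤ 3 ^ od i n * n := Nat.mul_le_mul_right _ (Nat.one_le_pow _ _ (by norm_num))
  omega

theorem cond300 {c L lam : ℝ} {J : ℕ} (hlam : 1 ≤ lam)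
    (hlamN : Real.log lam ≤ Real.log 2 + (20 / 228) * (c * L)) (hJ : c * L < (J + 1) * Real.log 2)
    (hJ300 : 300 ≤ J) : Real.sqrt lam * 0.966 ^ J ≤ 1 / 2 := by
  have hlam0 : 0 < lam := by linarith
  have h2 : Real.log 0.966 ≤ -0.034 := by
    have := Real.log_le_sub_one_of_pos (show (0 : ℝ) < 0.966 by norm_num)
    linarith
  have hl2 := Real.log_two_lt_d9
  have hl2' := Real.log_two_gt_d9
  have hJR : (300 : ℝ) ≤ J := by exact_mod_cast hJ300
  have hs : Real.sqrt lam = Real.exp (Real.log lam / 2) := by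
    rw [Real.sqrt_eq_rpow, Real.rpow_def_of_pos hlam0]; ring_nf
  have h3 : (0.966 : ℝ) ^ J = Real.exp (J * Real.log 0.966) := by
    rw [Real.exp_nat_mul, Real.exp_log (by norm_num)]
  have h4 : (1 : ℝ) / 2 = Real.exp (-Real.log 2) := by
    rw [Real.exp_neg, Real.exp_log (by norm_num)]; norm_num
  rw [hs, h3, h4, ← Real.exp_add]
  apply Real.exp_le_exp.2
  have h5 : (J : ℝ) * Real.log 0.966 ≤ J * (-0.034) := mul_le_mul_of_nonneg_left h2 (by positivity)
  have h6 : ((J : ℝ) + 1) * Real.log 2 ≤ (J + 1) * 0.6931471808 :=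
    mul_le_mul_of_nonneg_left hl2.le (by positivity)
  linarith

theorem low_real {θ : ℝ} (hθ0 : 0 < θ) (hθ1 : θ < 1) : ∃ x₀ : ℝ, ∀ x : ℝ, x₀ ≤ x → ∀ V : ℝ, x ≤ V →
    V ≤ x ^ (1 + (1 - θ) / 12) → x ^ 2 / V / 24 ≤
      ({n : ℕ | 1 ≤ n ∧ (n : ℝ) ≤ x ∧ ∃ k, V < (T^[k] n : ℕ) ∧ ∀ j ≤ k, x ^ θ < (T^[j] n : ℕ)}.ncard : ℝ) := by
  classical
  have hl2 := Real.log_two_lt_d9
  have hl2' := Real.log_two_gt_d9
  have hlog2 : 0 < Real.log 2 := by linarith
  set s : ℝ := 1 - θ with hs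
  have hs0 : 0 < s := by linarith
  have hs1 : s < 1 := by linarith
  set c : ℝ := 19 / 20 * s with hc
  have hc0 : 0 < c := by positivity
  refine ⟨Real.exp (301 * Real.log 2 / c), fun x hx V hxV hVx => ?_⟩
  have hx1 : 1 < x := by
    refine lt_of_lt_of_le ?_ hx
    rw [Real.one_lt_exp_iff]; positivity
  have hx0 : 0 < x := by linarith
  have hV0 : 0 < V := by linarith
  set L := Real.log x with hL
  have hcL : 301 * Real.log 2 ≤ c * L := by
    have := Real.log_le_log (Real.exp_pos _) hx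
    rw [Real.log_exp, div_le_iff₀ hc0] at this
    linarith
  have hL0 : 0 < L := Real.log_pos hx1
  -- `J`
  obtain ⟨J, hJ⟩ : ∃ J : ℕ, J = ⌊c * L / Real.log 2⌋₊ := ⟨_, rfl⟩
  have hJ1 : (J : ℝ) * Real.log 2 ≤ c * L := by
    have : (J : ℝ) ≤ c * L / Real.log 2 := by
      rw [hJ]; exact Nat.floor_le (by positivity)
    rwa [le_div_iff₀ hlog2] at this
  have hJ2 : c * L < (J + 1) * Real.log 2 := by
    have : c * L / Real.log 2 < J + 1 := by rw [hJ]; exact Nat.lt_floor_add_one _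
    rwa [div_lt_iff₀ hlog2] at this
  have hJ300 : 300 ≤ J := by
    rw [hJ]
    apply Nat.le_floor
    rw [le_div_iff₀ hlog2]
    push_cast
    linarith
  have h2J : (0 : ℝ) < 2 ^ J := by positivity
  have h2Jx : (2 : ℝ) ^ J ≤ x ^ c := by
    rw [Real.rpow_def_of_pos hx0, ← Real.exp_log h2J, Real.log_pow]
    apply Real.exp_le_exp.2
    linarith
  -- `x^(s/20) ≥ 8`
  have h8 : (8 : ℝ) ≤ x ^ (s / 20) := by
    rw [Real.rpow_def_of_pos hx0, ← Real.exp_log (show (0 : ℝ) < 8 by norm_num)]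
    apply Real.exp_le_exp.2
    have : Real.log 8 = 3 * Real.log 2 := by
      rw [show (8 : ℝ) = 2 ^ 3 by norm_num, Real.log_pow]; norm_num
    rw [this, ← hL]
    have h1 : 301 * Real.log 2 ≤ 19 / 20 * s * L := hcL
    nlinarith
  have hxs : x = x ^ c * x ^ (s / 20) * x ^ θ := by
    rw [← Real.rpow_add hx0, ← Real.rpow_add hx0]
    have : c + s / 20 + θ = 1 := by rw [hc, hs]; ring
    rw [this, Real.rpow_one]
  have hxθ1 : 1 ≤ x ^ θ := Real.one_le_rpow hx1.le hθ0.le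
  have hxθ0 : 0 < x ^ θ := by linarith
  have hxc0 : 0 < x ^ c := Real.rpow_pos_of_pos hx0 _
  -- `x ≥ 8 * 2^J * x^θ`
  have hkey : 8 * 2 ^ J * x ^ θ ≤ x := by
    calc 8 * 2 ^ J * x ^ θ ≤ x ^ (s / 20) * x ^ c * x ^ θ := by
          apply mul_le_mul_of_nonneg_right _ hxθ0.le
          exact mul_le_mul h8 h2Jx h2J.le (by linarith)
      _ = x := by rw [mul_comm (x ^ (s / 20)), ← hxs]
  set u : ℝ := x / 2 ^ (J + 1) with hu
  have hu4 : 4 ≤ u := by
    rw [hu, le_div_iff₀ (by positivity), pow_succ]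
    nlinarith
  have hux : 2 ^ J * u = x / 2 := by rw [hu, pow_succ]; field_simp
  -- `lam`
  set lam : ℝ := 2 * V / x with hlamdef
  have hlam2 : 2 ≤ lam := by rw [hlamdef, le_div_iff₀ hx0]; linarith
  have hlam1 : 1 ≤ lam := by linarith
  have hlam0 : 0 < lam := by linarith
  have hloglam : Real.log lam ≤ Real.log 2 + (20 / 228) * (c * L) := by
    have h1 : Real.log V ≤ (1 + s / 12) * L := by
      have := Real.log_le_log hV0 hVx
      rwa [Real.log_rpow hx0] at this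
    rw [hlamdef, Real.log_div (by positivity) hx0.ne', Real.log_mul (by norm_num) hV0.ne', ← hL]
    have : (20 / 228 : ℝ) * (c * L) = s / 12 * L := by rw [hc]; ring
    rw [this]
    linarith
  have hcount := count_PP hlam1 (cond300 hlam1 hloglam hJ2 hJ300)
  set G := (range (2 ^ J)).filter fun n => PP lam J n with hG
  set I := Ioc ⌊u⌋₊ ⌊2 * u - 1⌋₊ with hI
  set F := (Icc 1 ⌊x⌋₊).filter fun n => ∃ k, V < (T^[k] n : ℕ) ∧ ∀ j ≤ k, x ^ θ < (T^[j] n : ℕ) with hF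
  have hset : {n : ℕ | 1 ≤ n ∧ (n : ℝ) ≤ x ∧ ∃ k, V < (T^[k] n : ℕ) ∧ ∀ j ≤ k, x ^ θ < (T^[j] n : ℕ)}
      = (F : Set ℕ) := by
    ext n
    rw [hF, coe_filter]
    simp only [Set.mem_ofPred_eq, mem_Icc, Nat.le_floor_iff hx0.le]
    tauto
  rw [hset, Set.ncard_coe_finset]
  have hinj : Set.InjOn (fun p : ℕ × ℕ => p.1 + 2 ^ J * p.2) ((G ×ˢ I : Finset (ℕ × ℕ)) : Set (ℕ × ℕ)) := by
    rintro ⟨a, t⟩ h1 ⟨b, r⟩ h2 h
    rw [mem_coe, mem_product, hG, mem_filter, mem_range] at h1 h2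
    simp only at h h1 h2
    have e1 : (a + 2 ^ J * t) % 2 ^ J = a := by
      rw [Nat.add_mul_mod_self_left]; exact Nat.mod_eq_of_lt h1.1.1
    have e2 : (b + 2 ^ J * r) % 2 ^ J = b := by
      rw [Nat.add_mul_mod_self_left]; exact Nat.mod_eq_of_lt h2.1.1
    have e3 : a = b := by rw [← e1, ← e2, h]
    subst e3
    have e4 : 2 ^ J * t = 2 ^ J * r := by omega
    have e5 : t = r := Nat.eq_of_mul_eq_mul_left (by positivity) e4
    rw [e5]
  have hmaps : ∀ p ∈ G ×ˢ I, (fun p : ℕ × ℕ => p.1 + 2 ^ J * p.2) p ∈ F := by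
    rintro ⟨a, t⟩ h1
    rw [mem_product, hG, mem_filter, mem_range, hI, mem_Ioc] at h1
    obtain ⟨⟨ha, hPP⟩, ht1, ht2⟩ := h1
    simp only at ha hPP ht1 ht2 ⊢
    set n := a + 2 ^ J * t with hn
    have hnR : (n : ℝ) = a + 2 ^ J * t := by rw [hn]; push_cast; ring
    have htu : u < t := by
      have h3 := Nat.lt_floor_add_one u
      have h4 : ((⌊u⌋₊ + 1 : ℕ) : ℝ) ≤ t := by exact_mod_cast ht1
      push_cast at h4
      linarith
    have htu2 : (t : ℝ) ≤ 2 * u - 1 := by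
      have h3 : (t : ℝ) ≤ (⌊2 * u - 1⌋₊ : ℝ) := by exact_mod_cast ht2
      exact h3.trans (Nat.floor_le (by linarith))
    have haR : (a : ℝ) < 2 ^ J := by exact_mod_cast ha
    have ha0 : (0 : ℝ) ≤ a := Nat.cast_nonneg a
    have hnx : x / 2 < n := by
      have : 2 ^ J * u < 2 ^ J * (t : ℝ) := mul_lt_mul_of_pos_left htu h2J
      rw [hnR]; linarith
    have hnx2 : (n : ℝ) ≤ x := by
      have : 2 ^ J * (t : ℝ) ≤ 2 ^ J * (2 * u - 1) := mul_le_mul_of_nonneg_left htu2 h2J.le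
      rw [hnR]; nlinarith
    have hn1 : 1 ≤ n := by
      have : (0 : ℝ) < n := by linarith
      have : 0 < n := by exact_mod_cast this
      omega
    rw [hF, mem_filter, mem_Icc, Nat.le_floor_iff hx0.le]
    refine ⟨⟨hn1, hnx2⟩, ?_⟩
    have hPn : PP lam J n := by rw [hn, PP_shift]; exact hPP
    obtain ⟨j, hj, hjb⟩ := hPn
    have h2j : (0 : ℝ) < 2 ^ j := by positivity
    refine ⟨j, ?_, ?_⟩
    · have h1 := iter_eq j n
      have h2 : (3 : ℝ) ^ od j n * n ≤ 2 ^ j * (T^[j] n : ℕ) := by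
        have : 3 ^ od j n * n ≤ 2 ^ j * T^[j] n := by omega
        exact_mod_cast this
      have h3 : 2 ^ j * V < 2 ^ j * ((T^[j] n : ℕ) : ℝ) := by
        calc 2 ^ j * V = lam * 2 ^ j * (x / 2) := by rw [hlamdef]; field_simp
          _ < lam * 2 ^ j * n := mul_lt_mul_of_pos_left hnx (by positivity)
          _ ≤ 3 ^ od j n * n := mul_le_mul_of_nonneg_right hjb (Nat.cast_nonneg _)
          _ ≤ _ := h2
      exact lt_of_mul_lt_mul_left h3 h2j.le
    · intro i hi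
      have h1 : (n : ℝ) ≤ 2 ^ i * (T^[i] n : ℕ) := by exact_mod_cast le_iter i n
      have h2 : (2 : ℝ) ^ i ≤ 2 ^ J := pow_le_pow_right₀ (by norm_num) (by omega)
      have h3 : (n : ℝ) ≤ 2 ^ J * (T^[i] n : ℕ) :=
        h1.trans (mul_le_mul_of_nonneg_right h2 (Nat.cast_nonneg _))
      have h4 : 2 ^ J * x ^ θ < 2 ^ J * ((T^[i] n : ℕ) : ℝ) := by
        have : 4 * (2 ^ J * x ^ θ) ≤ x / 2 := by linarith
        have h5 : 0 < 2 ^ J * x ^ θ := by positivity
        linarith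
      exact lt_of_mul_lt_mul_left h4 h2J.le
  have hcard := card_le_card_of_injOn _ hmaps hinj
  rw [card_product] at hcard
  have hIc : u / 2 ≤ (I.card : ℝ) := by
    rw [hI, Nat.card_Ioc]
    have h1 := Nat.floor_le (show (0 : ℝ) ≤ u by linarith)
    have h2 := Nat.lt_floor_add_one (2 * u - 1)
    have h3 : (⌊u⌋₊ : ℝ) ≤ (⌊2 * u - 1⌋₊ : ℝ) := by linarith
    have h4 : ⌊u⌋₊ ≤ ⌊2 * u - 1⌋₊ := by exact_mod_cast h3
    rw [Nat.cast_sub h4]
    linarith
  calc x ^ 2 / V / 24 = (2 ^ J / (3 * lam)) * (u / 2) := by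
        rw [hlamdef, hu, pow_succ]; field_simp; ring
    _ ≤ (G.card : ℝ) * (I.card : ℝ) := mul_le_mul hcount hIc (by linarith) (Nat.cast_nonneg _)
    _ ≤ F.card := by exact_mod_cast hcard

end Pool.Agent.H828R3.Exc
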