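import Mathlib
import Pool.Agent.H319R2.LlnMain

/-! Upper bound for the number of starting points which exceed `V` before they go below `y`. -/

set_option autoImplicit false

namespace Pool.Agent.H828R3.Exc

open Finset Pool.Agent.Helper894.Collatz Pool.Agent.H377R2 Pool.Agent.H319R2.Lln

/-- a non-exceptional starting point descends to the level `l` and stays at most `V` -/
theorem descendV {k l x : ℕ} {V : ℝ} (hx : 0 < x) (hxk : x < 2 ^ k) (hV0 : (x : ℝ) ≤ V)
    (h : ∀ i, l < i → i ≤ k → x ∉ bad k i k (k * k)) (hV : x ∉ ExcV V k l (k * k)) :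
    ∀ d, l + d ≤ k → ∃ m ≤ d * k, FP (k - d) m x ∧ ∀ j ≤ m, ((T^[j] x : ℕ) : ℝ) ≤ V := by
  classical
  intro d
  induction d with
  | zero =>
    intro _
    refine ⟨0, by simp, ⟨by intro j hj; omega, by simpa using hxk⟩, ?_⟩
    intro j hj
    have : j = 0 := by omega
    subst this
    simpa using hV0
  | succ d ih =>
    intro hd
    obtain ⟨m, hm, hfp, hq⟩ := ih (by omega)
    have hmM : m ≤ k * k := hm.trans (Nat.mul_le_mul_right _ (by omega))
    have hns : T^[m] x ∉ stuck (k - d) (min (k - d) k) := by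
      intro hcon
      apply h (k - d) (by omega) (by omega)
      rw [bad, mem_filter, mem_range]
      exact ⟨hxk, hx, m, hmM, hfp, hcon⟩
    have hmin : min (k - d) k = k - d := min_eq_left (Nat.sub_le _ _)
    rw [hmin] at hns
    set i := k - d with hi
    have hi0 : 0 < i := by omega
    have hpow : 2 ^ i = 2 * 2 ^ (i - 1) := by rw [← pow_succ']; congr 1; omega
    have e : k - (d + 1) = i - 1 := by omega
    rw [e]
    rcases Nat.lt_or_ge (T^[m] x) (2 ^ (i - 1)) with h1 | h1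
    · exact ⟨m, by nlinarith, ⟨fun j hj => by have := hfp.1 j hj; omega, h1⟩, hq⟩
    · have h2 := pass_next (le_refl i) hfp.2 (by omega) hns hi0
      have hex : ∃ r, T^[r] (T^[m] x) < 2 ^ (i - 1) := ⟨i, h2⟩
      have hfi : Nat.find hex ≤ i := Nat.find_min' hex h2
      have hbig : T^[m] x ∉ Big V i := by
        intro hcon
        apply hV
        unfold ExcV
        rw [mem_filter, mem_range]
        exact ⟨hxk, hx, i, by omega, by omega, m, hmM, hfp, hcon⟩
      refine ⟨m + Nat.find hex, ?_, ⟨?_, ?_⟩, ?_⟩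
      · have : Nat.find hex ≤ k := hfi.trans (by omega)
        rw [add_mul, one_mul]; omega
      · intro j hj
        rcases Nat.lt_or_ge j m with h3 | h3
        · have := hfp.1 j h3; omega
        · obtain ⟨r, rfl⟩ := Nat.exists_eq_add_of_le h3
          have := Nat.find_min hex (m := r) (by omega)
          rw [← Function.iterate_add_apply, add_comm] at this
          omega
      · have := Nat.find_spec hex
        rwa [← Function.iterate_add_apply, add_comm] at this
      · intro j hj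
        rcases Nat.lt_or_ge j m with h3 | h3
        · exact hq j h3.le
        · obtain ⟨r, rfl⟩ := Nat.exists_eq_add_of_le h3
          by_contra hcon
          apply hbig
          rw [mem_Big]
          refine ⟨hfp.2, by omega, r, by omega, ?_⟩
          rw [← Function.iterate_add_apply, add_comm]
          exact not_le.1 hcon

theorem card_bad_le (k l : ℕ) (hM : 2 * (k * k) ≤ 2 ^ l) {i : ℕ} (hi : l < i) (hik : i ≤ k) :
    ((bad k i k (k * k)).card : ℝ) ≤ 8 * (k * k + 2) ^ 2 * 2 ^ k * rho ^ l := by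
  have hM' : 2 * (k * k) ≤ 2 ^ i := hM.trans (Nat.pow_le_pow_right (by norm_num) hi.le)
  have hmin : min i k = i := min_eq_left hik
  have a1 := card_passage k i (k * k) hik hM' (stuck i (min i k)) (by
    intro y hy
    rw [stuck, mem_filter] at hy
    exact hy.2.1)
  have a2 := card_stuck i (min i k) (min_le_left _ _)
  have a3 : ((bad k i k (k * k)).card : ℝ) ≤
      (stuck i (min i k)).card * ((k * k + 1) * ((k * k + 2) * 2 ^ (k - i + 2))) := by
    exact_mod_cast a1
  refine a3.trans ?_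
  rw [hmin] at a2 ⊢
  have hr : 0 ≤ rho ^ i := pow_nonneg rho_pos.le _
  have hr2 : rho ^ i ≤ rho ^ l := pow_le_pow_of_le_one rho_pos.le rho_lt_one.le hi.le
  have a4 : (2 : ℝ) ^ i * 2 ^ (k - i + 2) = 4 * 2 ^ k := by
    rw [← pow_add]
    have : i + (k - i + 2) = k + 2 := by omega
    rw [this, pow_add]; ring
  calc ((stuck i i).card : ℝ) * ((k * k + 1) * ((k * k + 2) * 2 ^ (k - i + 2)))
      ≤ (2 * 2 ^ i * rho ^ i) * ((k * k + 2) * ((k * k + 2) * 2 ^ (k - i + 2))) := by
        apply mul_le_mul a2 _ (by positivity) (by positivity)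
        apply mul_le_mul_of_nonneg_right _ (by positivity)
        linarith
    _ = 2 * ((k * k + 2) ^ 2 * rho ^ i * (2 ^ i * 2 ^ (k - i + 2))) := by ring
    _ = 8 * (k * k + 2) ^ 2 * 2 ^ k * rho ^ i := by rw [a4]; ring
    _ ≤ _ := mul_le_mul_of_nonneg_left hr2 (by positivity)

/-- the dyadic form -/
theorem dyadic (k l : ℕ) (hlk : l ≤ k) (hM : 2 * (k * k) ≤ 2 ^ l) {V : ℝ} (hV : 0 < V) (S : Finset ℕ)
    (hS : ∀ x ∈ S, 0 < x ∧ x < 2 ^ k ∧ (x : ℝ) ≤ V ∧
      ¬ ∃ m, T^[m] x < 2 ^ l ∧ ∀ j ≤ m, ((T^[j] x : ℕ) : ℝ) ≤ V) :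
    (S.card : ℝ) ≤ 8 * (k * k + 2) ^ 2 * (k + 1) * (2 ^ k * rho ^ l + 4 ^ k / V) := by
  classical
  have hsub : S ⊆ (Ioc l k).biUnion (fun i => bad k i k (k * k)) ∪ ExcV V k l (k * k) := by
    intro x hx
    obtain ⟨h1, h2, h3, h4⟩ := hS x hx
    by_contra hcon
    rw [mem_union, not_or, mem_biUnion] at hcon
    obtain ⟨hc1, hc2⟩ := hcon
    apply h4
    obtain ⟨m, -, hfp, hq⟩ := descendV (l := l) h1 h2 h3
      (fun i hi hik hb => hc1 ⟨i, mem_Ioc.2 ⟨hi, hik⟩, hb⟩) hc2 (k - l) (by omega)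
    have e : k - (k - l) = l := by omega
    rw [e] at hfp
    exact ⟨m, hfp.2, hq⟩
  have h1 : (S.card : ℝ) ≤ ∑ i ∈ Ioc l k, ((bad k i k (k * k)).card : ℝ) + ((ExcV V k l (k * k)).card : ℝ) := by
    have h2 := (card_le_card hsub).trans (card_union_le _ _)
    have h3 := h2.trans (Nat.add_le_add_right card_biUnion_le _)
    exact_mod_cast h3
  have h2 : ∑ i ∈ Ioc l k, ((bad k i k (k * k)).card : ℝ)
      ≤ (k + 1) * (8 * (k * k + 2) ^ 2 * 2 ^ k * rho ^ l) := by
    calc ∑ i ∈ Ioc l k, ((bad k i k (k * k)).card : ℝ)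
        ≤ ∑ i ∈ Ioc l k, 8 * ((k : ℝ) * k + 2) ^ 2 * 2 ^ k * rho ^ l :=
          sum_le_sum fun i hi => card_bad_le k l hM (mem_Ioc.1 hi).1 (mem_Ioc.1 hi).2
      _ = ((k - l : ℕ) : ℝ) * (8 * (k * k + 2) ^ 2 * 2 ^ k * rho ^ l) := by
          rw [sum_const, Nat.card_Ioc, nsmul_eq_mul]
      _ ≤ _ := by
          apply mul_le_mul_of_nonneg_right _ (by have := rho_pos; positivity)
          have : ((k - l : ℕ) : ℝ) ≤ k := by exact_mod_cast Nat.sub_le _ _
          linarith
  have h3 := card_ExcV V hV k l (k * k) hM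
  push_cast at h3
  calc (S.card : ℝ) ≤ (k + 1) * (8 * (k * k + 2) ^ 2 * 2 ^ k * rho ^ l)
        + 8 * (k + 1) * (k * k + 2) ^ 2 * 4 ^ k / V := h1.trans (add_le_add h2 h3)
    _ = _ := by ring

end Pool.Agent.H828R3.Exc
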