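import Pool.Agent.H828R3.Exc.Up

/-! Real form of the upper bound. -/

set_option autoImplicit false

namespace Pool.Agent.H828R3.Exc

open Finset Pool.Agent.Helper894.Collatz Pool.Agent.H377R2 Pool.Agent.H319R2.Lln

theorem rho21 : rho ^ 21 ≤ 1 / 2 := by
  have h := rho_pow
  have h0 := rho_pos
  have h1 := rho_lt_one
  have h2 : (rho ^ 21) ^ 2 ≤ (1 / 2) ^ 2 := by
    calc (rho ^ 21) ^ 2 = rho ^ 41 * rho := by ring
      _ ≤ 1 / 4 * 1 := mul_le_mul h h1.le h0.le (by norm_num)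
      _ = _ := by norm_num
  exact (pow_le_pow_iff_left₀ (by positivity) (by norm_num) (by norm_num)).1 h2

theorem rho_rpow (l : ℕ) : rho ^ l ≤ ((2 : ℝ) ^ l) ^ (-(1 / 21) : ℝ) := by
  have h0 := rho_pos
  have h1 : rho ≤ (2 : ℝ) ^ (-(1 / 21) : ℝ) := by
    have h2 : rho = (rho ^ 21) ^ ((1 : ℝ) / 21) := by
      rw [← Real.rpow_natCast rho 21, ← Real.rpow_mul h0.le]; norm_num
    rw [h2]
    have h3 : ((2 : ℝ)) ^ (-(1 / 21) : ℝ) = (1 / 2 : ℝ) ^ ((1 : ℝ) / 21) := by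
      rw [one_div 2, Real.inv_rpow (by norm_num), Real.rpow_neg (by norm_num)]
    rw [h3]
    exact Real.rpow_le_rpow (by positivity) rho21 (by norm_num)
  calc rho ^ l ≤ ((2 : ℝ) ^ (-(1 / 21) : ℝ)) ^ l := pow_le_pow_left₀ h0.le h1 l
    _ = ((2 : ℝ) ^ l) ^ (-(1 / 21) : ℝ) := by
      rw [← Real.rpow_natCast, ← Real.rpow_natCast, ← Real.rpow_mul (by norm_num),
        ← Real.rpow_mul (by norm_num), mul_comm]

/-- The bound: all but `C (log x)^5 (x y^(-1/21) + x^2 / V)` of the `n ≤ x` reach a value `≤ y` and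
stay `≤ V` until then. -/
theorem upper_real {x y V : ℝ} (hx : 2 ≤ x) (hy : 1 ≤ y) (hV : x ≤ V) :
    ({n : ℕ | 1 ≤ n ∧ (n : ℝ) ≤ x ∧
      ¬ ∃ m, ((T^[m] n : ℕ) : ℝ) ≤ y ∧ ∀ j ≤ m, ((T^[j] n : ℕ) : ℝ) ≤ V}.ncard : ℝ) ≤
      140000 * (Real.log x) ^ 5 * (x * y ^ (-(1 / 21) : ℝ) + x ^ 2 / V) := by
  classical
  have hx0 : 0 < x := by linarith
  have hV0 : 0 < V := by linarith
  have hy0 : 0 < y := by linarith
  set L := Real.log x with hL
  have hl2 := Real.log_two_lt_d9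
  have hl2' := Real.log_two_gt_d9
  have hlog2 : 0 < Real.log 2 := by linarith
  have hL2 : Real.log 2 ≤ L := Real.log_le_log (by norm_num) hx
  have hL0 : 0 < L := by linarith
  set S : Finset ℕ := (Icc 1 ⌊x⌋₊).filter (fun n =>
      ¬ ∃ m, ((T^[m] n : ℕ) : ℝ) ≤ y ∧ ∀ j ≤ m, ((T^[j] n : ℕ) : ℝ) ≤ V) with hS
  have hset : {n : ℕ | 1 ≤ n ∧ (n : ℝ) ≤ x ∧
      ¬ ∃ m, ((T^[m] n : ℕ) : ℝ) ≤ y ∧ ∀ j ≤ m, ((T^[j] n : ℕ) : ℝ) ≤ V} = (S : Set ℕ) := by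
    ext n
    rw [hS, coe_filter]
    simp only [Set.mem_ofPred_eq, mem_Icc, Nat.le_floor_iff hx0.le]
    tauto
  rw [hset, Set.ncard_coe_finset]
  have hSx : (S.card : ℝ) ≤ x := by
    have h1 : S.card ≤ ⌊x⌋₊ := by
      refine (card_filter_le _ _).trans ?_
      rw [Nat.card_Icc]; omega
    calc (S.card : ℝ) ≤ (⌊x⌋₊ : ℝ) := by exact_mod_cast h1
      _ ≤ x := Nat.floor_le hx0.le
  have hyp : 0 < y ^ (-(1 / 21) : ℝ) := Real.rpow_pos_of_pos hy0 _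
  -- `k`
  obtain ⟨k, hk⟩ : ∃ k, k = Nat.log 2 ⌊x⌋₊ + 1 := ⟨_, rfl⟩
  have hfx : ⌊x⌋₊ ≠ 0 := by
    have : 2 ≤ ⌊x⌋₊ := Nat.le_floor (by exact_mod_cast hx)
    omega
  have hkx : (2 : ℝ) ^ k ≤ 2 * x := by
    have h1 : 2 ^ (Nat.log 2 ⌊x⌋₊) ≤ ⌊x⌋₊ := Nat.pow_log_le_self 2 hfx
    have h2 : ((2 : ℝ) ^ (Nat.log 2 ⌊x⌋₊)) ≤ ⌊x⌋₊ := by exact_mod_cast h1
    have h3 := Nat.floor_le hx0.le
    rw [hk, pow_succ]; linarith
  have hxk : ∀ n : ℕ, (n : ℝ) ≤ x → n < 2 ^ k := by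
    intro n hn
    rw [hk]
    exact lt_of_le_of_lt (Nat.le_floor hn) (Nat.lt_pow_succ_log_self (by norm_num) _)
  have hxk' : x < 2 ^ k := by
    have h1 : ⌊x⌋₊ < 2 ^ k := hxk _ (Nat.floor_le hx0.le)
    have h2 : ((⌊x⌋₊ + 1 : ℕ) : ℝ) ≤ 2 ^ k := by exact_mod_cast h1
    have h3 := Nat.lt_floor_add_one x
    push_cast at h2
    linarith
  have hkL : (k : ℝ) ≤ 3 * L := by
    have h1 : (k : ℝ) * Real.log 2 ≤ Real.log (2 * x) := by
      rw [← Real.log_pow]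
      exact Real.log_le_log (by positivity) hkx
    rw [Real.log_mul (by norm_num) hx0.ne', ← hL] at h1
    nlinarith
  have hk1 : (1 : ℝ) ≤ k := by
    have : 1 ≤ k := by omega
    exact_mod_cast this
  -- `l`
  obtain ⟨l, hl⟩ : ∃ l, l = Nat.log 2 ⌊y⌋₊ := ⟨_, rfl⟩
  have hfy : ⌊y⌋₊ ≠ 0 := by
    have : 1 ≤ ⌊y⌋₊ := Nat.le_floor (by exact_mod_cast hy)
    omega
  have hly : (2 : ℝ) ^ l ≤ y := by
    have h1 : 2 ^ l ≤ ⌊y⌋₊ := by rw [hl]; exact Nat.pow_log_le_self 2 hfy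
    have h2 : ((2 : ℝ) ^ l) ≤ ⌊y⌋₊ := by exact_mod_cast h1
    exact h2.trans (Nat.floor_le hy0.le)
  have hly2 : y ≤ 2 * 2 ^ l := by
    have h1 : ⌊y⌋₊ < 2 ^ (l + 1) := by rw [hl]; exact Nat.lt_pow_succ_log_self (by norm_num) _
    have h2 : ((⌊y⌋₊ + 1 : ℕ) : ℝ) ≤ 2 ^ (l + 1) := by exact_mod_cast h1
    have h3 := Nat.lt_floor_add_one y
    push_cast at h2
    rw [pow_succ] at h2
    linarith
  have hterm0 : 0 ≤ x ^ 2 / V := by positivity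
  by_cases hlk : l ≤ k
  swap
  · -- empty
    have hempty : S = ∅ := by
      rw [eq_empty_iff_forall_notMem]
      intro n hn
      rw [hS, mem_filter, mem_Icc, Nat.le_floor_iff hx0.le] at hn
      apply hn.2
      refine ⟨0, ?_, ?_⟩
      · simp only [Function.iterate_zero, id]
        have h1 : (2 : ℝ) ^ k ≤ 2 ^ l := pow_le_pow_right₀ (by norm_num) (by omega)
        linarith [hn.1.2]
      · intro j hj
        have : j = 0 := by omega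
        subst this
        simp only [Function.iterate_zero, id]
        linarith [hn.1.2]
    rw [hempty, card_empty, Nat.cast_zero]
    positivity
  by_cases hM : 2 * (k * k) ≤ 2 ^ l
  swap
  · push Not at hM
    have h1 : (2 : ℝ) ^ l < 2 * (k * k) := by exact_mod_cast hM
    have h2 : y ≤ 36 * L ^ 2 := by nlinarith
    have h3 : (1 : ℝ) ≤ 36 * L ^ 2 := by nlinarith
    have h4 : y ^ ((1 : ℝ) / 21) ≤ 36 * L ^ 2 := by
      calc y ^ ((1 : ℝ) / 21) ≤ (36 * L ^ 2) ^ ((1 : ℝ) / 21) :=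
            Real.rpow_le_rpow hy0.le h2 (by norm_num)
        _ ≤ (36 * L ^ 2) ^ (1 : ℝ) := Real.rpow_le_rpow_of_exponent_le h3 (by norm_num)
        _ = _ := Real.rpow_one _
    have h5 : 1 ≤ 140000 * L ^ 5 * y ^ (-(1 / 21) : ℝ) := by
      rw [Real.rpow_neg hy0.le, ← div_eq_mul_inv, le_div_iff₀ (Real.rpow_pos_of_pos hy0 _), one_mul]
      refine h4.trans ?_
      have h6 : 0.33 ≤ L ^ 3 := by
        calc (0.33 : ℝ) ≤ 0.693 ^ 3 := by norm_num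
          _ ≤ L ^ 3 := pow_le_pow_left₀ (by norm_num) (by linarith) 3
      have h7 : L ^ 5 = L ^ 3 * L ^ 2 := by ring
      rw [h7]
      have h8 : 0 ≤ L ^ 2 := by positivity
      nlinarith
    calc (S.card : ℝ) ≤ x * 1 := by linarith
      _ ≤ x * (140000 * L ^ 5 * y ^ (-(1 / 21) : ℝ)) := mul_le_mul_of_nonneg_left h5 hx0.le
      _ = 140000 * L ^ 5 * (x * y ^ (-(1 / 21) : ℝ)) := by ring
      _ ≤ _ := by
          apply mul_le_mul_of_nonneg_left _ (by positivity)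
          linarith
  -- the main case
  have hd := dyadic k l hlk hM hV0 S (by
    intro n hn
    rw [hS, mem_filter, mem_Icc, Nat.le_floor_iff hx0.le] at hn
    refine ⟨by omega, hxk n hn.1.2, hn.1.2.trans hV, ?_⟩
    rintro ⟨m, hm1, hm2⟩
    apply hn.2
    refine ⟨m, ?_, hm2⟩
    have : ((T^[m] n : ℕ) : ℝ) ≤ 2 ^ l := by exact_mod_cast hm1.le
    linarith)
  have hrl : rho ^ l ≤ 2 * y ^ (-(1 / 21) : ℝ) := by
    refine (rho_rpow l).trans ?_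
    have h1 : y / 2 ≤ 2 ^ l := by linarith
    have h2 : ((2 : ℝ) ^ l) ^ (-(1 / 21) : ℝ) ≤ (y / 2) ^ (-(1 / 21) : ℝ) :=
      Real.rpow_le_rpow_of_nonpos (by positivity) h1 (by norm_num)
    refine h2.trans ?_
    rw [Real.div_rpow hy0.le (by norm_num), div_eq_mul_inv, mul_comm]
    apply mul_le_mul_of_nonneg_right _ hyp.le
    rw [← Real.rpow_neg (by norm_num), neg_neg]
    calc (2 : ℝ) ^ ((1 : ℝ) / 21) ≤ 2 ^ (1 : ℝ) :=
          Real.rpow_le_rpow_of_exponent_le (by norm_num) (by norm_num)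
      _ = 2 := Real.rpow_one _
  have h4k : (4 : ℝ) ^ k ≤ 4 * x ^ 2 := by
    have : (4 : ℝ) ^ k = (2 ^ k) ^ 2 := by rw [← pow_mul, mul_comm, pow_mul]; norm_num
    rw [this]
    calc ((2 : ℝ) ^ k) ^ 2 ≤ (2 * x) ^ 2 := pow_le_pow_left₀ (by positivity) hkx 2
      _ = _ := by ring
  have hpoly : 8 * ((k : ℝ) * k + 2) ^ 2 * (k + 1) ≤ 35000 * L ^ 5 := by
    have h1 : (k : ℝ) * k + 2 ≤ 3 * k ^ 2 := by nlinarith
    have h2 : (k : ℝ) + 1 ≤ 2 * k := by linarith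
    calc 8 * ((k : ℝ) * k + 2) ^ 2 * (k + 1) ≤ 8 * (3 * (k : ℝ) ^ 2) ^ 2 * (2 * k) := by
          apply mul_le_mul _ h2 (by positivity) (by positivity)
          apply mul_le_mul_of_nonneg_left _ (by norm_num)
          exact pow_le_pow_left₀ (by positivity) h1 2
      _ = 144 * (k : ℝ) ^ 5 := by ring
      _ ≤ 144 * (3 * L) ^ 5 := by
          apply mul_le_mul_of_nonneg_left _ (by norm_num)
          exact pow_le_pow_left₀ (by positivity) hkL 5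
      _ ≤ _ := by
          have : 0 ≤ L ^ 5 := by positivity
          have e : (3 * L) ^ 5 = 243 * L ^ 5 := by ring
          rw [e]; linarith
  have hbr : (2 : ℝ) ^ k * rho ^ l + 4 ^ k / V ≤ 4 * (x * y ^ (-(1 / 21) : ℝ) + x ^ 2 / V) := by
    have h1 : (2 : ℝ) ^ k * rho ^ l ≤ (2 * x) * (2 * y ^ (-(1 / 21) : ℝ)) :=
      mul_le_mul hkx hrl (by have := rho_pos; positivity) (by positivity)
    have h2 : (4 : ℝ) ^ k / V ≤ 4 * x ^ 2 / V := div_le_div_of_nonneg_right h4k hV0.le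
    have h3 : 4 * x ^ 2 / V = 4 * (x ^ 2 / V) := by ring
    rw [h3] at h2
    linarith
  calc (S.card : ℝ) ≤ 8 * ((k : ℝ) * k + 2) ^ 2 * (k + 1) * (2 ^ k * rho ^ l + 4 ^ k / V) := hd
    _ ≤ (35000 * L ^ 5) * (4 * (x * y ^ (-(1 / 21) : ℝ) + x ^ 2 / V)) := by
        apply mul_le_mul hpoly hbr _ (by positivity)
        have := rho_pos
        positivity
    _ = _ := by ring

end Pool.Agent.H828R3.Exc
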